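import Mathlib
import Pool.Agent.H.MP_c2fecd.C
import Pool.Agent.Lib.helper23.LipDef2

set_option autoImplicit false

namespace Pool.Agent.Results.MP_c2fecd_an.Main

open Pool.Agent.Lib.helper23.LF Filter Topology

theorem result : ∀ (M : Type) [MetricSpace M] [CompleteSpace M] (o : M),
    ∃ N : FreeSp o → ℝ,
      (∃ a b : ℝ, 0 < a ∧ 0 < b ∧ ∀ z, a * ‖z‖ ≤ N z ∧ N z ≤ b * ‖z‖) ∧
      (∀ z w, N (z + w) ≤ N z + N w) ∧ (∀ (t : ℝ) z, N (t • z) = |t| * N z) ∧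
      ∀ (z : FreeSp o) (u : ℕ → FreeSp o), N z = 1 → (∀ n, N (u n) = 1) →
        Tendsto (fun n => N (u n + z)) atTop (𝓝 2) → Tendsto (fun n => N (u n - z)) atTop (𝓝 0) := by
  intro M _ _ o
  obtain ⟨C, hC⟩ := H.MP_c2fecd.Fr.slices (Z := FreeSp o) (H.MP_c2fecd.fr_free o)
  obtain ⟨N, h1, h2, h3, h4⟩ := H.MP_36cdb9.mot C hC
  exact ⟨N, h1, h2, h3, fun z u e1 e2 e3 => h4 z u (by simp [e1, e2])
    (by simpa [e1, add_comm] using e3)⟩

end Pool.Agent.Results.MP_c2fecd_an.Main
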